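import Mathlib
import Pool.Agent.W536.XI.Stm

open Complex Filter Topology
open W536.XI

namespace Pool.Agent.W362.XI

lemma sum_sq_le (b : ℝ) (hb : 0 < b) (N : ℕ) :
    ∑ k ∈ Finset.range N, 1 / (((k:ℝ)+1)^2 + b^2) ≤ 2 / b := by
  have h : ∑ k ∈ Finset.range N, 1 / (((k:ℝ)+1)^2 + b^2) ≤ 2 / b - 2 / (N + b) := by
    induction N with
    | zero => simp
    | succ n ih =>
      rw [Finset.sum_range_succ]
      have : 1 / (((n:ℝ)+1)^2 + b^2) ≤ 2 / (n + b) - 2 / (((n+1 : ℕ) : ℝ) + b) := by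
        push_cast
        have hn : (0:ℝ) ≤ n := Nat.cast_nonneg n
        rw [div_sub_div _ _ (by positivity) (by positivity),
          div_le_div_iff₀ (by positivity) (by positivity)]
        nlinarith [sq_nonneg ((n:ℝ)+1-b)]
      linarith
  have : 0 ≤ 2 / ((N:ℝ) + b) := by positivity
  linarith

lemma norm_w (b : ℝ) (hb : 2 ≤ b) (k : ℕ) :
    ‖1 / ((k:ℂ)+1+I*b)‖ ^ 2 = 1 / (((k:ℝ)+1)^2 + b^2) := by
  rw [norm_div, norm_one, div_pow, one_pow, ← Complex.normSq_eq_norm_sq, Complex.normSq_apply]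
  simp
  ring

lemma norm_w_le (b : ℝ) (hb : 2 ≤ b) (k : ℕ) :
    ‖1 / ((k:ℂ)+1+I*b)‖ ≤ 1 / b := by
  rw [norm_div, norm_one]
  apply one_div_le_one_div_of_le (by linarith)
  have h := Complex.abs_im_le_norm ((k:ℂ)+1+I*b)
  simp at h
  calc b ≤ |b| := le_abs_self b
    _ ≤ _ := h

lemma log1_le (u : ℂ) (hu : ‖u‖ ≤ 1 / 2) : ‖log (1 + u) - u‖ ≤ ‖u‖ ^ 2 := by
  have h := Complex.norm_log_one_add_sub_self_le (z := u) (by linarith)
  have h2 : (1 - ‖u‖)⁻¹ ≤ 2 := by
    rw [inv_le_comm₀ (by linarith) (by norm_num)]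
    linarith
  have h3 : ‖u‖ ^ 2 * (1 - ‖u‖)⁻¹ / 2 ≤ ‖u‖ ^ 2 * 2 / 2 := by
    gcongr
  linarith

lemma tele (b : ℝ) (hb : 2 ≤ b) (N : ℕ) :
    ‖∑ k ∈ Finset.range N, 1 / ((k:ℂ)+1+I*b) - (log ((N:ℂ)+I*b) - log (I*b))‖ ≤
      ∑ k ∈ Finset.range N, 1 / (((k:ℝ)+1)^2 + b^2) := by
  induction N with
  | zero => simp
  | succ n ih =>
    rw [Finset.sum_range_succ, Finset.sum_range_succ]
    set w : ℂ := 1 / ((n:ℂ)+1+I*b) with hw
    have hz : ((n:ℂ)+1+I*b) ≠ 0 := by
      intro h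
      have := congrArg Complex.im h
      simp at this
      linarith
    have hwn : ‖w‖ ≤ 1 / 2 := by
      refine (norm_w_le b hb n).trans ?_
      apply one_div_le_one_div_of_le (by norm_num) hb
    have h1w : (0:ℝ) < (1 - w).re := by
      have := Complex.abs_re_le_norm w
      have h2 := le_abs_self w.re
      simp
      linarith
    have h1w0 : (1 - w) ≠ 0 := by
      intro h
      rw [h] at h1w
      simp at h1w
    have e1 : (n:ℂ) + I * b = ((n:ℂ)+1+I*b) * (1 - w) := by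
      rw [hw]
      field_simp
      ring
    have hlog : log ((n:ℂ) + I * b) = log ((n:ℂ)+1+I*b) + log (1 - w) := by
      rw [e1]
      apply Complex.log_mul hz h1w0
      have ha1 : |arg ((n:ℂ)+1+I*b)| ≤ Real.pi / 2 := by
        rw [Complex.abs_arg_le_pi_div_two_iff]
        simp
        positivity
      have ha2 : |arg (1 - w)| < Real.pi / 2 := by
        rw [Complex.abs_arg_lt_pi_div_two_iff]
        left
        exact h1w
      rw [abs_le] at ha1
      rw [abs_lt] at ha2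
      constructor
      · linarith [ha1.1, ha2.1]
      · linarith [ha1.2, ha2.2]
    have e2 : (((n+1 : ℕ) : ℂ) + I * b) = ((n:ℂ)+1+I*b) := by push_cast; ring
    rw [e2]
    have h3 : ‖log (1 + (-w)) - (-w)‖ ≤ ‖-w‖ ^ 2 := log1_le _ (by rw [norm_neg]; exact hwn)
    rw [norm_neg, norm_w b hb n] at h3
    have e3 : ∑ k ∈ Finset.range n, 1 / ((k:ℂ)+1+I*b) + w - (log ((n:ℂ)+1+I*b) - log (I*b)) =
      (∑ k ∈ Finset.range n, 1 / ((k:ℂ)+1+I*b) - (log ((n:ℂ)+I*b) - log (I*b))) +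
        (log (1 + (-w)) - (-w)) := by
      rw [hlog, ← sub_eq_add_neg 1 w]
      ring
    rw [e3]
    exact (norm_add_le _ _).trans (add_le_add ih h3)

lemma tele2 (b : ℝ) (hb : 2 ≤ b) (n : ℕ) (hn : b + 1 ≤ n) :
    ‖(Real.log n : ℂ) - ∑ k ∈ Finset.range (n+1), 1 / ((k:ℂ)+1+I*b) - (Real.log b : ℂ)‖ ≤ 10 := by
  have h1 := tele b hb (n+1)
  have h2 := sum_sq_le b (by linarith) (n+1)
  have h3 : 2 / b ≤ 1 := by
    rw [div_le_one (by linarith)]
    exact hb
  have hn0 : (0:ℝ) < n := by linarith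
  have h4 : log (I * b) = (Real.log b : ℂ) + (Real.pi / 2 : ℝ) * I := by
    rw [mul_comm, Complex.log_ofReal_mul (by linarith) I_ne_zero, Complex.log_I]
    push_cast
    ring
  have h5 : ‖log (((n+1 : ℕ):ℂ) + I * b) - Real.log n‖ ≤ 4 := by
    set z : ℂ := ((n+1 : ℕ):ℂ) + I * b with hz
    have hzlo : (n:ℝ) ≤ ‖z‖ := by
      have h := Complex.abs_re_le_norm z
      have : z.re = n + 1 := by rw [hz]; simp
      rw [this] at h
      have := le_abs_self ((n:ℝ)+1)
      linarith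
    have hzhi : ‖z‖ ≤ 3 * n := by
      have := norm_add_le (((n+1 : ℕ):ℂ)) (I * b)
      rw [Complex.norm_natCast, norm_mul, Complex.norm_I, Complex.norm_real, Real.norm_eq_abs,
        abs_of_pos (by linarith : 0 < b)] at this
      push_cast at this
      rw [hz]
      push_cast
      linarith
    have hre : |Real.log ‖z‖ - Real.log n| ≤ 2 := by
      rw [abs_le]
      have ha : Real.log n ≤ Real.log ‖z‖ := Real.log_le_log hn0 hzlo
      have hb' : Real.log ‖z‖ ≤ Real.log (3 * n) := Real.log_le_log (by linarith) hzhi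
      rw [Real.log_mul (by norm_num) (by linarith)] at hb'
      have hc : Real.log 3 ≤ 2 := by
        have := Real.log_le_sub_one_of_pos (by norm_num : (0:ℝ) < 3)
        linarith
      constructor <;> linarith
    have him : |arg z| ≤ 2 := by
      have : |arg z| ≤ Real.pi / 2 := by
        rw [Complex.abs_arg_le_pi_div_two_iff]
        rw [hz]
        simp
        positivity
      linarith [Real.pi_le_four]
    refine (Complex.norm_le_abs_re_add_abs_im _).trans ?_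
    rw [Complex.sub_re, Complex.sub_im, Complex.log_re, Complex.log_im, Complex.ofReal_re,
      Complex.ofReal_im, sub_zero]
    linarith
  have h6 : (Real.log n : ℂ) - ∑ k ∈ Finset.range (n+1), 1 / ((k:ℂ)+1+I*b) - (Real.log b : ℂ) =
    -(log (((n+1 : ℕ):ℂ) + I * b) - Real.log n) -
      (∑ k ∈ Finset.range (n+1), 1 / ((k:ℂ)+1+I*b) -
        (log (((n+1 : ℕ):ℂ)+I*b) - log (I*b))) + (Real.pi / 2 : ℝ) * I := by
    rw [h4]
    ring
  rw [h6]
  refine (norm_add_le _ _).trans ?_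
  have h7 : ‖((Real.pi / 2 : ℝ) : ℂ) * I‖ ≤ 2 := by
    rw [norm_mul, Complex.norm_I, Complex.norm_real, Real.norm_eq_abs,
      abs_of_pos (by positivity)]
    linarith [Real.pi_le_four]
  have h8 := norm_sub_le (-(log (((n+1 : ℕ):ℂ) + I * b) - Real.log n))
      (∑ k ∈ Finset.range (n+1), 1 / ((k:ℂ)+1+I*b) -
        (log (((n+1 : ℕ):ℂ)+I*b) - log (I*b)))
  rw [norm_neg] at h8
  linarith

lemma gseq (b : ℝ) (hb : 2 ≤ b) (η : ℂ) (hη : ‖η‖ ≤ b / 2) (n : ℕ) (hn : 1 ≤ n) :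
    GammaSeq (1 + I * b + η) n = GammaSeq (1 + I * b) n *
      cexp (η * ((Real.log n : ℂ) - ∑ k ∈ Finset.range (n+1), 1 / ((k:ℂ)+1+I*b)) +
        ∑ k ∈ Finset.range (n+1), (η * (1 / ((k:ℂ)+1+I*b)) - log (1 + η * (1 / ((k:ℂ)+1+I*b))))) := by
  have hz : ∀ k : ℕ, ((k:ℂ)+1+I*b) ≠ 0 := by
    intro k h
    have := congrArg Complex.im h
    simp at this
    linarith
  have hu : ∀ k : ℕ, ‖η * (1 / ((k:ℂ)+1+I*b))‖ ≤ 1 / 2 := by
    intro k
    rw [norm_mul]
    have := norm_w_le b hb k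
    calc ‖η‖ * ‖1 / ((k:ℂ)+1+I*b)‖ ≤ (b / 2) * (1 / b) := by gcongr
      _ = 1 / 2 := by field_simp
  have hu0 : ∀ k : ℕ, 1 + η * (1 / ((k:ℂ)+1+I*b)) ≠ 0 := by
    intro k h
    have h1 : η * (1 / ((k:ℂ)+1+I*b)) = -1 := by linear_combination h
    have h2 := hu k
    rw [h1] at h2
    norm_num at h2
  have hn0 : (n:ℂ) ≠ 0 := by
    have : n ≠ 0 := by omega
    exact_mod_cast this
  have e1 : η * ((Real.log n : ℂ) - ∑ k ∈ Finset.range (n+1), 1 / ((k:ℂ)+1+I*b)) +
        ∑ k ∈ Finset.range (n+1), (η * (1 / ((k:ℂ)+1+I*b)) - log (1 + η * (1 / ((k:ℂ)+1+I*b)))) =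
      log n * η + ∑ k ∈ Finset.range (n+1), (- log (1 + η * (1 / ((k:ℂ)+1+I*b)))) := by
    rw [Finset.sum_sub_distrib, ← Finset.mul_sum, Finset.sum_neg_distrib, Complex.natCast_log]
    ring
  rw [e1, Complex.exp_add, Complex.exp_sum]
  have e2 : ∀ k ∈ Finset.range (n+1), cexp (- log (1 + η * (1 / ((k:ℂ)+1+I*b)))) =
      ((k:ℂ)+1+I*b) / (1 + I * b + η + k) := by
    intro k _
    rw [Complex.exp_neg, Complex.exp_log (hu0 k)]
    have h1 : 1 + η * (1 / ((k:ℂ)+1+I*b)) = (1 + I * b + η + k) / ((k:ℂ)+1+I*b) := by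
      have := hz k
      field_simp
      ring
    rw [h1, inv_div]
  rw [Finset.prod_congr rfl e2, Finset.prod_div_distrib, GammaSeq, GammaSeq]
  have e3 : ∏ k ∈ Finset.range (n+1), ((1:ℂ) + I * b + k) =
      ∏ k ∈ Finset.range (n+1), ((k:ℂ)+1+I*b) := by
    apply Finset.prod_congr rfl
    intro k _
    ring
  rw [e3]
  have e4 : ∏ k ∈ Finset.range (n+1), ((k:ℂ)+1+I*b) ≠ 0 := Finset.prod_ne_zero_iff.mpr
    (fun k _ => hz k)
  have e5 : ∏ k ∈ Finset.range (n+1), ((1:ℂ) + I * b + η + k) ≠ 0 := by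
    apply Finset.prod_ne_zero_iff.mpr
    intro k _
    have h1 : (1 + I * b + η + k) = ((k:ℂ)+1+I*b) * (1 + η * (1 / ((k:ℂ)+1+I*b))) := by
      have := hz k
      field_simp
      ring
    rw [h1]
    exact mul_ne_zero (hz k) (hu0 k)
  rw [Complex.cpow_add _ _ hn0, Complex.cpow_def_of_ne_zero hn0 η]
  field_simp

lemma gratio (b : ℝ) (hb : 2 ≤ b) : ∃ p : ℂ, ‖p - Real.log b‖ ≤ 10 ∧
    ∀ η : ℂ, ‖η‖ ≤ b / 2 → ∃ E : ℂ, ‖E‖ ≤ 2 * ‖η‖ ^ 2 / b ∧
      Gamma (1 + I * b + η) = Gamma (1 + I * b) * cexp (η * p + E) := by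
  set P : ℕ → ℂ := fun n => (Real.log n : ℂ) - ∑ k ∈ Finset.range (n+1), 1 / ((k:ℂ)+1+I*b) with hP
  have hfreq : ∃ᶠ n in atTop, P n ∈ Metric.closedBall (Real.log b : ℂ) 10 := by
    apply Eventually.frequently
    filter_upwards [eventually_ge_atTop (Nat.ceil (b + 1))] with n hn
    rw [Metric.mem_closedBall, dist_eq_norm]
    apply tele2 b hb n
    exact (Nat.le_ceil _).trans (by exact_mod_cast hn)
  obtain ⟨p, hp, φ, hφ, hlim⟩ := (isCompact_closedBall (Real.log b : ℂ) 10).tendsto_subseq' hfreq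
  refine ⟨p, by rwa [Metric.mem_closedBall, dist_eq_norm] at hp, ?_⟩
  intro η hη
  set Q : ℕ → ℂ := fun n => ∑ k ∈ Finset.range (n+1),
    (η * (1 / ((k:ℂ)+1+I*b)) - log (1 + η * (1 / ((k:ℂ)+1+I*b)))) with hQ
  have hQb : ∀ n, ‖Q n‖ ≤ 2 * ‖η‖ ^ 2 / b := by
    intro n
    have hu : ∀ k : ℕ, ‖η * (1 / ((k:ℂ)+1+I*b))‖ ≤ 1 / 2 := by
      intro k
      rw [norm_mul]
      have := norm_w_le b hb k
      calc ‖η‖ * ‖1 / ((k:ℂ)+1+I*b)‖ ≤ (b / 2) * (1 / b) := by gcongr
        _ = 1 / 2 := by field_simp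
    calc ‖Q n‖ ≤ ∑ k ∈ Finset.range (n+1),
          ‖(η * (1 / ((k:ℂ)+1+I*b)) - log (1 + η * (1 / ((k:ℂ)+1+I*b))))‖ := norm_sum_le _ _
      _ ≤ ∑ k ∈ Finset.range (n+1), ‖η‖ ^ 2 * (1 / (((k:ℝ)+1)^2 + b^2)) := by
          apply Finset.sum_le_sum
          intro k _
          rw [norm_sub_rev]
          refine (log1_le _ (hu k)).trans ?_
          rw [norm_mul, mul_pow, norm_w b hb k]
      _ = ‖η‖ ^ 2 * ∑ k ∈ Finset.range (n+1), (1 / (((k:ℝ)+1)^2 + b^2)) := by
          rw [Finset.mul_sum]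
      _ ≤ ‖η‖ ^ 2 * (2 / b) := by
          apply mul_le_mul_of_nonneg_left (sum_sq_le b (by linarith) (n+1)) (by positivity)
      _ = 2 * ‖η‖ ^ 2 / b := by ring
  obtain ⟨E, hE, φ', hφ', hlim'⟩ := (isCompact_closedBall (0:ℂ) (2 * ‖η‖ ^ 2 / b)).tendsto_subseq
    (x := Q ∘ φ) (fun n => by
      rw [Metric.mem_closedBall, dist_zero_right]
      exact hQb _)
  refine ⟨E, by rwa [Metric.mem_closedBall, dist_zero_right] at hE, ?_⟩
  have hψ : StrictMono (φ ∘ φ') := hφ.comp hφ'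
  have l1 : Tendsto (fun m => GammaSeq (1 + I * b + η) (φ (φ' m))) atTop
      (𝓝 (Gamma (1 + I * b + η))) :=
    (GammaSeq_tendsto_Gamma _).comp hψ.tendsto_atTop
  have l2 : Tendsto (fun m => GammaSeq (1 + I * b) (φ (φ' m))) atTop
      (𝓝 (Gamma (1 + I * b))) :=
    (GammaSeq_tendsto_Gamma _).comp hψ.tendsto_atTop
  have l3 : Tendsto (fun m => P (φ (φ' m))) atTop (𝓝 p) := hlim.comp hφ'.tendsto_atTop
  have l4 : Tendsto (fun m => Q (φ (φ' m))) atTop (𝓝 E) := hlim'
  have l5 : Tendsto (fun m => GammaSeq (1 + I * b) (φ (φ' m)) *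
      cexp (η * P (φ (φ' m)) + Q (φ (φ' m)))) atTop
      (𝓝 (Gamma (1 + I * b) * cexp (η * p + E))) :=
    l2.mul ((Complex.continuous_exp.tendsto _).comp ((l3.const_mul η).add l4))
  refine tendsto_nhds_unique l1 (l5.congr' ?_)
  filter_upwards [hψ.tendsto_atTop.eventually_ge_atTop 1] with m hm
  exact (gseq b hb η hη _ hm).symm

lemma gamma_lower (x : ℝ) (hx : 1 ≤ x) : Real.exp (-(2 * x)) ≤ ‖Gamma (1 + I * x)‖ := by
  have hx0 : (x:ℂ) ≠ 0 := by
    have : x ≠ 0 := by linarith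
    exact_mod_cast this
  have h1 : Gamma (1 + I * x) = (I * x) * Gamma (I * x) := by
    rw [add_comm]
    exact Complex.Gamma_add_one _ (mul_ne_zero I_ne_zero hx0)
  have h2 := Complex.Gamma_mul_Gamma_one_sub (I * x)
  have h3 : Gamma (1 - I * x) = (starRingEnd ℂ) (Gamma (1 + I * x)) := by
    rw [← Complex.Gamma_conj]
    congr 1
    simp
    ring
  have hsin : sin (Real.pi * (I * x)) = (Real.sinh (Real.pi * x) : ℂ) * I := by
    have : (Real.pi : ℂ) * (I * x) = ((Real.pi * x : ℝ) : ℂ) * I := by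
      push_cast
      ring
    rw [this, Complex.sin_mul_I, Complex.ofReal_sinh]
  have hsh : 0 < Real.sinh (Real.pi * x) := by
    rw [Real.sinh_pos_iff]
    positivity
  have h4 : (Complex.normSq (Gamma (1 + I * x)) : ℂ) =
      ((Real.pi * x / Real.sinh (Real.pi * x) : ℝ) : ℂ) := by
    rw [← Complex.mul_conj, ← h3]
    have : Gamma (1 + I * x) * Gamma (1 - I * x) =
        (I * x) * (Gamma (I * x) * Gamma (1 - I * x)) := by
      rw [h1]
      ring
    rw [this, h2, hsin]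
    have hsh' : (Real.sinh (Real.pi * x) : ℂ) ≠ 0 := by exact_mod_cast hsh.ne'
    push_cast at hsh' ⊢
    field_simp
  have h5 : Complex.normSq (Gamma (1 + I * x)) = Real.pi * x / Real.sinh (Real.pi * x) := by
    exact_mod_cast h4
  have h6 : Real.sinh (Real.pi * x) ≤ Real.exp (Real.pi * x) := by
    rw [Real.sinh_eq]
    have := Real.exp_pos (-(Real.pi * x))
    have := Real.exp_pos ((Real.pi * x))
    linarith
  have h7 : Real.exp (-(2 * x)) ^ 2 ≤ ‖Gamma (1 + I * x)‖ ^ 2 := by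
    rw [← Complex.normSq_eq_norm_sq, h5, le_div_iff₀ hsh, ← Real.exp_nat_mul]
    push_cast
    calc Real.exp (2 * -(2 * x)) * Real.sinh (Real.pi * x)
        ≤ Real.exp (2 * -(2 * x)) * Real.exp (Real.pi * x) := by gcongr
      _ = Real.exp ((Real.pi - 4) * x) := by
          rw [← Real.exp_add]
          congr 1
          ring
      _ ≤ Real.exp 0 := by
          apply Real.exp_le_exp.mpr
          have := Real.pi_le_four
          nlinarith
      _ = 1 := Real.exp_zero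
      _ ≤ Real.pi * x := by
          have := Real.pi_gt_three
          nlinarith
  exact (sq_le_sq₀ (Real.exp_pos _).le (norm_nonneg _)).mp h7

theorem gam : S_GAM := by
  refine ⟨20, 4, by norm_num, by norm_num, ?_⟩
  intro y hy
  obtain ⟨p, hp, hE⟩ := gratio (y / 2) (by linarith)
  have hiy : I * (y:ℂ) - 1 ≠ 0 := by
    intro h
    have := congrArg Complex.re h
    simp at this
  have hiyn : y ≤ ‖I * (y:ℂ) - 1‖ := by
    have := Complex.abs_im_le_norm (I * (y:ℂ) - 1)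
    simp at this
    exact (le_abs_self y).trans this
  have ecast : ((y / 2 : ℝ) : ℂ) = (y:ℂ) / 2 := by push_cast; ring
  refine ⟨p / 2 - (Real.log Real.pi : ℝ) / 2 + 1 / (I * y - 1), ?_, ?_, ?_⟩
  · have e1 : p / 2 - (Real.log Real.pi : ℝ) / 2 + 1 / (I * y - 1) - ((Real.log y / 2 : ℝ) : ℂ) =
        (p - Real.log (y/2)) / 2 + (-(Real.log Real.pi / 2 + Real.log 2 / 2) : ℝ) +
          1 / (I * y - 1) := by
      rw [Real.log_div (by linarith) (by norm_num)]
      push_cast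
      ring
    rw [e1]
    have h1 : ‖(p - Real.log (y/2)) / 2‖ ≤ 5 := by
      rw [norm_div]
      simp only [Complex.norm_ofNat]
      linarith
    have hlp : 0 ≤ Real.log Real.pi := Real.log_nonneg (by linarith [Real.pi_gt_three])
    have hlp2 : Real.log Real.pi ≤ 3 := by
      have := Real.log_le_sub_one_of_pos Real.pi_pos
      linarith [Real.pi_le_four]
    have hl2 : 0 ≤ Real.log 2 := Real.log_nonneg (by norm_num)
    have hl22 : Real.log 2 ≤ 1 := by
      have := Real.log_le_sub_one_of_pos (by norm_num : (0:ℝ) < 2)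
      linarith
    have h2 : ‖((-(Real.log Real.pi / 2 + Real.log 2 / 2) : ℝ) : ℂ)‖ ≤ 2 := by
      rw [Complex.norm_real, Real.norm_eq_abs, abs_neg, abs_of_nonneg (by positivity)]
      linarith
    have h3 : ‖1 / (I * (y:ℂ) - 1)‖ ≤ 1 := by
      rw [norm_div, norm_one, div_le_one (by linarith)]
      linarith
    have h4 := norm_add_le ((p - Real.log (y/2)) / 2 +
      ((-(Real.log Real.pi / 2 + Real.log 2 / 2) : ℝ) : ℂ)) (1 / (I * y - 1))
    have h5 := norm_add_le ((p - Real.log (y/2)) / 2)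
      ((-(Real.log Real.pi / 2 + Real.log 2 / 2) : ℝ) : ℂ)
    linarith
  · have h1 := gamma_lower (y / 2) (by linarith)
    have e2 : hh (I * y) = (I * y - 1) * Gamma (1 + I * (y / 2 : ℝ)) *
        cexp ((-(y / 2) * Real.log Real.pi : ℝ) * I) := by
      unfold hh
      congr 1
      · congr 2
        push_cast
        ring
      · congr 1
        push_cast
        ring
    rw [e2, norm_mul, norm_mul, Complex.norm_exp_ofReal_mul_I, mul_one]
    have e3 : (2:ℝ) * (y / 2) = y := by ring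
    rw [e3] at h1
    calc Real.exp (-y) = 1 * Real.exp (-y) := by ring
      _ ≤ ‖I * (y:ℂ) - 1‖ * ‖Gamma (1 + I * (y / 2 : ℝ))‖ := by
        apply mul_le_mul (by linarith) h1 (Real.exp_pos _).le (norm_nonneg _)
  · intro d hd
    obtain ⟨E, hE1, hE2⟩ := hE (d / 2) (by
      rw [norm_div]
      simp only [Complex.norm_ofNat]
      have : 0 ≤ ‖d‖ := norm_nonneg d
      linarith)
    set x : ℂ := d / (I * y - 1) with hx
    have hxn : ‖x‖ ≤ ‖d‖ / y := by
      rw [hx, norm_div]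
      apply div_le_div_of_nonneg_left (norm_nonneg _) (by linarith) hiyn
    have hx2 : ‖x‖ ≤ 1 / 2 := by
      refine hxn.trans ?_
      rw [div_le_iff₀ (by linarith)]
      linarith
    have hx0 : 1 + x ≠ 0 := by
      intro h
      have h1 : x = -1 := by linear_combination h
      rw [h1] at hx2
      norm_num at hx2
    refine ⟨E + (log (1 + x) - x), ?_, ?_⟩
    · have h1 := log1_le x hx2
      have h2 := norm_add_le E (log (1 + x) - x)
      have h3 : ‖x‖ ^ 2 ≤ ‖d‖ ^ 2 / y := by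
        calc ‖x‖ ^ 2 ≤ (‖d‖ / y) ^ 2 := by gcongr
          _ = ‖d‖ ^ 2 / y / y := by field_simp
          _ ≤ ‖d‖ ^ 2 / y := by
            apply div_le_self (by positivity) (by linarith)
      have h4 : 2 * ‖d / 2‖ ^ 2 / (y / 2) = ‖d‖ ^ 2 / y := by
        rw [norm_div]
        simp only [Complex.norm_ofNat]
        field_simp
      rw [h4] at hE1
      have h5 : 20 * ‖d‖ ^ 2 / y = 20 * (‖d‖ ^ 2 / y) := by ring
      have h6 : 0 ≤ ‖d‖ ^ 2 / y := by positivity
      rw [h5]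
      linarith
    · have e1 : I * (y:ℂ) + d - 1 = (I * y - 1) * cexp (x + (log (1 + x) - x)) := by
        have : x + (log (1 + x) - x) = log (1 + x) := by ring
        rw [this, Complex.exp_log hx0, hx]
        field_simp
        ring
      have e2 : (1:ℂ) + (I * y + d) / 2 = 1 + I * ((y / 2 : ℝ) : ℂ) + d / 2 := by
        push_cast
        ring
      have e2' : (1:ℂ) + (I * y) / 2 = 1 + I * ((y / 2 : ℝ) : ℂ) := by
        push_cast
        ring
      unfold hh
      rw [e1, e2, e2', hE2]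
      have e4 : cexp (-((I * ↑y + d) / 2) * ↑(Real.log Real.pi)) =
        cexp (-(I * ↑y / 2) * ↑(Real.log Real.pi)) * cexp (-(d / 2) * ↑(Real.log Real.pi)) := by
        rw [← Complex.exp_add]
        congr 1
        ring
      rw [e4]
      have e5 : cexp ((p / 2 - ↑(Real.log Real.pi) / 2 + 1 / (I * ↑y - 1)) * d +
          (E + (log (1 + x) - x))) = cexp (x + (log (1 + x) - x)) * cexp (d / 2 * p + E) *
            cexp (-(d / 2) * ↑(Real.log Real.pi)) := by
        rw [← Complex.exp_add, ← Complex.exp_add]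
        congr 1
        rw [hx]
        ring
      rw [e5]
      ring

end Pool.Agent.W362.XI
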